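import Pool.Agent.H683.SC.Stm

/-!
# The subgraph component polynomial: a sharper bound for the number of labels
-/

set_option autoImplicit false

namespace Pool.Agent.H683.SC

open Pool.Agent.H683.MC

/-- The product of the number of labels and its logarithm is `O(m)`: with `L = log m`, the number
of labels is at most `C * (m / L + 1)` and, if `m ≥ 2`, at most `C' * m / L` with
`m / L ≤ m`, so its logarithm is at most `L + C''`. -/
def S_AR2 : Prop := ∃ C : ℕ, ∀ F : Cnf,
  (KOf F + gOf F + 5) * Nat.log 2 (KOf F + gOf F + 5) ≤ C * (F.length + 1)

end Pool.Agent.H683.SC
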