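import Pool.Agent.H683.MC.Defs

/-!
# The subgraph component polynomial and clique-width: definitions

The machine model and the encodings are those of `FptDefs` (Mathlib's `Turing.TM2`, bit strings,
numbers in binary); graphs are given by adjacency matrices (`graphOf`).
-/

set_option autoImplicit false

namespace Pool.Agent.H683.SC

open Turing Pool.Agent.NPC Pool.Agent.H633R2

/-- Terms for labelled graphs: `vtx a` is a single vertex with label `a`, `union s t` is the
disjoint union, `join a b t` adds all edges between vertices with label `a` and vertices with
label `b`, `relab a b t` replaces the label `a` by `b`. -/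
inductive KExp : Type
  | vtx (a : ℕ)
  | union (s t : KExp)
  | join (a b : ℕ) (t : KExp)
  | relab (a b : ℕ) (t : KExp)

/-- The code of a term (labels in binary). -/
def KExp.tree : KExp → T
  | vtx a => T.node T.nil (toT a)
  | union s t => T.node (T.node T.nil T.nil) (T.node s.tree t.tree)
  | join a b t => T.node (T.node T.nil (T.node T.nil T.nil)) (T.node (toT (a, b)) t.tree)
  | relab a b t => T.node (T.node (T.node T.nil T.nil) T.nil) (T.node (toT (a, b)) t.tree)

theorem KExp.tree_injective : Function.Injective KExp.tree := by
  intro s
  induction s with
  | vtx a =>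
    intro t h
    cases t with
    | vtx b =>
      simp only [tree, T.node.injEq, true_and] at h
      rw [TEnc.inj h]
    | union _ _ => simp [tree] at h
    | join _ _ _ => simp [tree] at h
    | relab _ _ _ => simp [tree] at h
  | union s s' ih ih' =>
    intro t h
    cases t with
    | vtx b => simp [tree] at h
    | union t t' =>
      simp only [tree, T.node.injEq, true_and] at h
      rw [ih h.1, ih' h.2]
    | join _ _ _ => simp [tree] at h
    | relab _ _ _ => simp [tree] at h
  | join a b s ih =>
    intro t h
    cases t with
    | vtx b => simp [tree] at h
    | union t t' => simp [tree] at h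
    | join a' b' t =>
      simp only [tree, T.node.injEq, true_and] at h
      have h1 : (a, b) = (a', b') := TEnc.inj h.1
      rw [Prod.mk.injEq] at h1
      rw [h1.1, h1.2, ih h.2]
    | relab _ _ _ => simp [tree] at h
  | relab a b s ih =>
    intro t h
    cases t with
    | vtx b => simp [tree] at h
    | union t t' => simp [tree] at h
    | join _ _ _ => simp [tree] at h
    | relab a' b' t =>
      simp only [tree, T.node.injEq, true_and] at h
      have h1 : (a, b) = (a', b') := TEnc.inj h.1
      rw [Prod.mk.injEq] at h1
      rw [h1.1, h1.2, ih h.2]

instance : TEnc KExp := ⟨KExp.tree, KExp.tree_injective⟩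

/-- The labels of the vertices `0, 1, …` of the value of the term. -/
def KExp.labs : KExp → List ℕ
  | vtx a => [a]
  | union s t => s.labs ++ t.labs
  | join _ _ t => t.labs
  | relab a b t => t.labs.map fun c => if c = a then b else c

/-- Adjacency in the value of the term (the vertices of the second graph of a disjoint union are
numbered after those of the first graph). -/
def KExp.Adj : KExp → ℕ → ℕ → Prop
  | vtx _, _, _ => False
  | union s t, u, v => (u < s.labs.length ∧ v < s.labs.length ∧ s.Adj u v) ∨
      (s.labs.length ≤ u ∧ s.labs.length ≤ v ∧ t.Adj (u - s.labs.length) (v - s.labs.length))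
  | join a b t, u, v => t.Adj u v ∨ (t.labs[u]? = some a ∧ t.labs[v]? = some b) ∨
      (t.labs[u]? = some b ∧ t.labs[v]? = some a)
  | relab _ _ t, u, v => t.Adj u v

/-- The term uses only the labels `0, …, k - 1`, and `join a b` only with `a ≠ b`: it is a
`k`-expression. -/
def KExp.Ok (k : ℕ) : KExp → Prop
  | vtx a => a < k
  | union s t => s.Ok k ∧ t.Ok k
  | join a b t => a < k ∧ b < k ∧ a ≠ b ∧ t.Ok k
  | relab a b t => a < k ∧ b < k ∧ t.Ok k

/-- `t` is a `k`-expression for the graph with the matrix `M`. -/
def IsKExp (k : ℕ) (M : List (List Bool)) (t : KExp) : Prop :=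
  t.Ok k ∧ ∃ e : Fin M.length ≃ Fin t.labs.length,
    ∀ u v, (graphOf M).Adj u v ↔ t.Adj (e u) (e v)

open Classical in
/-- The number of `i`-element sets of vertices that induce a subgraph with exactly `j` connected
components: the coefficient of `x ^ i * y ^ j` of the subgraph component polynomial. -/
noncomputable def qco (M : List (List Bool)) (i j : ℕ) : ℕ :=
  (Finset.univ.filter fun A : Finset (Fin M.length) =>
    A.card = i ∧ Nat.card ((graphOf M).induce (A : Set (Fin M.length))).ConnectedComponent = j).card

/-- All coefficients of the subgraph component polynomial. -/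
noncomputable def qtab (M : List (List Bool)) : List (List ℕ) :=
  (List.range (M.length + 1)).map fun i => (List.range (M.length + 1)).map fun j => qco M i j

/-- Some Turing machine computes, given a graph and a `k`-expression for it, all coefficients of the
subgraph component polynomial of the graph in time `2 ^ O(k) * N ^ O(1)`, where `N` is the length
of the input. -/
def ScpSinglyExponential : Prop :=
  ∃ (A : TM2ComputableAux Bool Bool) (c : ℕ) (p : Polynomial ℕ),
    ∀ (k : ℕ) (M : List (List Bool)) (t : KExp), IsKExp k M t →
      TmRuns A (bits (M, t)) (bits (qtab M)) (2 ^ (c * k) * p.eval (bits (M, t)).length)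

end Pool.Agent.H683.SC
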