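import Pool.Agent.H683.SC.Defs

/-!
# The subgraph component polynomial and clique-width: running times
-/

set_option autoImplicit false

namespace Pool.Agent.H683.SC

open Turing Pool.Agent.NPC Pool.Agent.H633R2 Pool.Agent.H683.MC

/-- Some Turing machine computes, given a graph and a `k`-expression for it, all coefficients of the
subgraph component polynomial of the graph in time `2 ^ (h k) * N ^ O(1)`, where `N` is the length
of the input. -/
def ScpTime (h : ℕ → ℕ) : Prop :=
  ∃ (A : TM2ComputableAux Bool Bool) (p : Polynomial ℕ),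
    ∀ (k : ℕ) (M : List (List Bool)) (t : KExp), IsKExp k M t →
      TmRuns A (bits (M, t)) (bits (qtab M)) (2 ^ h k * p.eval (bits (M, t)).length)

/-- For every `e ≥ 1` some Turing machine decides the satisfiability of 3-CNF formulas `F` with `m`
clauses in time `2 ^ (m / e) * |F| ^ O(1)`: the Exponential Time Hypothesis fails. -/
def ThreeSatSubexp : Prop :=
  ∀ e : ℕ, 1 ≤ e → ∃ (d : Cnf → Bool) (M : TM2ComputableAux Bool Bool) (p : Polynomial ℕ),
    (∀ F, IsThree F → (d F = true ↔ Satisfiable F)) ∧
    ∀ F, TmRuns M (bits F) (bits (d F)) (2 ^ (F.length / e) * p.eval (bits F).length)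

/-- `h k = o(k * log k)`. -/
def LittleO (h : ℕ → ℕ) : Prop := ∀ e : ℕ, ∃ k0, ∀ k ≥ k0, e * h k ≤ k * Nat.log 2 k

end Pool.Agent.H683.SC
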