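import Pool.Agent.H683.SC.PStm
import Pool.Agent.H683.SC.Defs2
import Pool.Agent.H683.SC.AR2
import Pool.Agent.H683.MC.Main

/-!
# A singly exponential algorithm for the subgraph component polynomial gives a subexponential
algorithm for 3-SAT: assembly
-/

set_option autoImplicit false

namespace Pool.Agent.NPC.H683SC

open Turing Pool.Agent.H633R2 Pool.Agent.H683.MC Pool.Agent.H683.SC Pool.Agent.NPC.H683MC

theorem cfOk (F : Cnf) : CfOk (KOf F) (gOf F) (cfOf F) := by
  intro f hf
  have h := List.mem_of_mem_filter hf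
  unfold quads at h
  simp only [List.mem_flatMap, List.mem_map, List.mem_range] at h
  obtain ⟨i, hi, a, ha, j, hj, b, hb, rfl⟩ := h
  exact ⟨hi, hj, ha, hb⟩

/-- The number of edges from the low-level program. -/
def cnt (cs : List Cm) : ℕ := (cs.filter fun c => c.2.isSome).length

theorem cnt_low (hs : List Hc) : cnt (low hs) = hs.length := by
  unfold cnt low
  induction hs with
  | nil => rfl
  | cons h hs ih =>
    rw [List.flatMap_cons, List.filter_append, List.length_append, ih, List.length_cons]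
    obtain ⟨t, a, b⟩ := h
    cases t <;> simp <;> omega

/-- The low-level program of a formula. -/
def csOf (F : Cnf) : List Cm := low (prog (KOf F) (gOf F) (cfOf F))

/-- The reduction. -/
def red (F : Cnf) : List (List Bool) × KExp :=
  (matOf (csOf (trunc F)), expOf (KOf (trunc F) + gOf (trunc F) + 3) (csOf (trunc F)))

/-- The number of labels. -/
def ex (F : Cnf) : ℕ := KOf (trunc F) + gOf (trunc F) + 5

/-- The postprocessing. -/
def fin (x : Cnf × List (List ℕ)) : Bool :=
  post (KOf (trunc x.1) + 1) (cnt (csOf (trunc x.1))) x.2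

theorem isKExp_red (hE : S_EXPR) (hV : S_VALP) (F : Cnf) :
    IsKExp (ex F) (red F).1 (red F).2 := by
  have h := hE (KOf (trunc F) + gOf (trunc F) + 3) (csOf (trunc F)) (by omega)
    (hV _ _ _ (cfOk _)).2
  exact h

theorem correct (hV : S_VALP) (hCOMP : S_COMP) (hPROG : S_PROG) (hUNIF : S_UNIF) (hCOL : S_COL)
    (hSAT : S_SAT) (hPOST : S_POST) (F : Cnf) (hF : IsThree F) :
    fin (F, qtab (red F).1) = true ↔ Satisfiable F := by
  unfold fin red
  simp only
  rw [trunc_eq hF, hPOST _ _ _ (by omega), ← hCOMP, hPROG, csOf, cnt_low,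
    hUNIF _ _ (hV _ _ _ (cfOk F)).1, hCOL _ _ _ (cfOk F), hSAT F hF]

theorem poly_trunc : Poly trunc := poly_trunc3

theorem poly_csOf (hPAR : S_PPAR) (hPCF : S_PPAR → S_PCF) (hPRG : S_PPRG) :
    Poly (fun F : Cnf => csOf (trunc F)) := by
  have h1 : Poly (fun F : Cnf3 => csOf F.1) := by
    unfold csOf
    refine hPRG Cnf3 (fun F => KOf F.1) (fun F => gOf F.1) (fun F => cfOf F.1) ?_ ?_ (hPCF hPAR)
    · exact hPAR.1.comp (Poly.val _)
    · exact hPAR.2.comp (Poly.val _)
  exact Poly.comp (g := fun F : Cnf3 => csOf F.1) (f := trunc3) h1 poly_trunc3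

theorem poly_red (hPAR : S_PPAR) (hPCF : S_PPAR → S_PCF) (hPRG : S_PPRG) (hMAT : S_PMAT)
    (hEXP : S_PEXP) : Poly red := by
  have hcs := poly_csOf hPAR hPCF hPRG
  have hK : UPoly (fun F : Cnf => KOf (trunc F)) := hPAR.1.comp poly_trunc
  have hg : UPoly (fun F : Cnf => gOf (trunc F)) := hPAR.2.comp poly_trunc
  unfold red
  refine Poly.pair ?_ ?_
  · exact Poly.comp (g := fun cs : List Cm => matOf cs) (f := fun F : Cnf => csOf (trunc F))
      hMAT hcs
  · exact hEXP Cnf _ _ (UPoly.add (UPoly.add hK hg) (UPoly.const 3)).toPoly hcs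

theorem poly_fin (hPAR : S_PPAR) (hPCF : S_PPAR → S_PCF) (hPRG : S_PPRG) (hPOST : S_PPOST) :
    Poly fin := by
  unfold fin
  have hcs : Poly (fun x : Cnf × List (List ℕ) => csOf (trunc x.1)) :=
    Poly.comp (g := fun F : Cnf => csOf (trunc F)) (f := fun x : Cnf × List (List ℕ) => x.1)
      (poly_csOf hPAR hPCF hPRG) (Poly.fst Poly.id)
  have hK : UPoly (fun x : Cnf × List (List ℕ) => KOf (trunc x.1)) :=
    hPAR.1.comp (poly_trunc.comp (Poly.fst Poly.id))
  refine hPOST _ _ _ _ (UPoly.add hK (UPoly.const 1)) ?_ (Poly.snd Poly.id)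
  unfold cnt
  refine UPoly.length (Poly.filter (l := fun x : Cnf × List (List ℕ) => csOf (trunc x.1))
    (p := fun _ c => c.2.isSome) hcs ?_)
  exact Poly.isSome (Poly.snd (Poly.snd Poly.id))

/-- **Main theorem**, from the lemmas. -/
theorem main0 (hEXPR : S_EXPR) (hCOMP : S_COMP) (hPROG : S_PROG) (hUNIF : S_UNIF)
    (hVALP : S_VALP) (hCOL : S_COL) (hSAT : S_SAT) (hPOST : S_POST) (hPPAR : S_PPAR)
    (hPCF : S_PPAR → S_PCF) (hPPRG : S_PPRG) (hPMAT : S_PMAT) (hPEXP : S_PEXP)
    (hPPOST : S_PPOST) (hECTM : S_ECTM) (hECPAIR : S_ECPAIR) (hECOUT : S_ECOUT)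
    (h : ℕ → ℕ) (hS : ScpTime h) :
    ∃ (d : Cnf → Bool) (M : TM2ComputableAux Bool Bool) (c : ℕ) (p : Polynomial ℕ),
      (∀ F, IsThree F → (d F = true ↔ Satisfiable F)) ∧
      ∀ F, TmRuns M (bits F) (bits (d F)) (2 ^ (c * h (ex F)) * p.eval (bits F).length) := by
  obtain ⟨A, p, hA⟩ := hS
  have hEC := hECTM Cnf (List (List Bool) × KExp) (List (List ℕ)) (fun F => h (ex F)) red
    (fun F => qtab (red F).1) A 1 p (poly_red hPPAR hPCF hPPRG hPMAT hPEXP)
    (fun F => by
      have h1 := hA _ _ _ (isKExp_red hEXPR hVALP F)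
      rwa [Nat.one_mul])
  obtain ⟨A', c', p', h'⟩ := hECOUT Cnf (Cnf × List (List ℕ)) Bool (fun F => h (ex F)) _ fin
    (hECPAIR _ _ _ _ hEC) (poly_fin hPPAR hPCF hPPRG hPPOST)
  exact ⟨fun F => fin (F, qtab (red F).1), A', c', p', fun F hF =>
    correct hVALP hCOMP hPROG hUNIF hCOL hSAT hPOST F hF, h'⟩

/-- The statement of `main0`. -/
def Base : Prop := ∀ h : ℕ → ℕ, ScpTime h →
    ∃ (d : Cnf → Bool) (M : TM2ComputableAux Bool Bool) (c : ℕ) (p : Polynomial ℕ),
      (∀ F, IsThree F → (d F = true ↔ Satisfiable F)) ∧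
      ∀ F, TmRuns M (bits F) (bits (d F)) (2 ^ (c * h (ex F)) * p.eval (bits F).length)

theorem runs_mono {M : TM2ComputableAux Bool Bool} {x y : List Bool} {t t' : ℕ}
    (h : TmRuns M x y t) (ht : t ≤ t') : TmRuns M x y t' := by
  obtain ⟨h5⟩ := h
  exact ⟨outputs_conv rfl rfl ht h5⟩

/-- First form of the lower bound. -/
theorem fast (hB : Base) (hAR : S_AR) (h : ScpSinglyExponential) : ThreeSatFast := by
  obtain ⟨A, c, p, hA⟩ := h
  obtain ⟨C, hC⟩ := hAR
  obtain ⟨d, M, c', p', hd, hM⟩ := hB (fun k => c * k) ⟨A, p, hA⟩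
  refine ⟨d, M, c' * c * C, p', hd, fun F => runs_mono (hM F) ?_⟩
  refine Nat.mul_le_mul_right _ (Nat.pow_le_pow_right (by norm_num) ?_)
  rw [Nat.mul_assoc, Nat.mul_assoc]
  refine Nat.mul_le_mul_left _ (Nat.mul_le_mul_left _ ?_)
  exact (hC (trunc F)).trans (Nat.mul_le_mul_left _ (wt_trunc F))

theorem length_trunc (F : Cnf) : (trunc F).length ≤ F.length := by
  unfold trunc
  split_ifs
  · exact le_rfl
  · exact Nat.zero_le _

/-- Second form of the lower bound. -/
theorem subexp (hB : Base) (hAR : S_AR2) (h : ℕ → ℕ) (hh : LittleO h) (hS : ScpTime h) :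
    ThreeSatSubexp := by
  intro e he
  obtain ⟨C, hC⟩ := hAR
  obtain ⟨d, M, c, p, hd, hM⟩ := hB h hS
  obtain ⟨k0, hk0⟩ := hh (e * c * C)
  -- the bound for small values
  set B := ∑ k ∈ Finset.range k0, h k with hBdef
  have key : ∀ F : Cnf, c * h (ex F) ≤ c * B + 1 + (F.length / e + 1) := by
    intro F
    have hCF : ex F * Nat.log 2 (ex F) ≤ C * (F.length + 1) :=
      (hC (trunc F)).trans (Nat.mul_le_mul_left _ (Nat.succ_le_succ (length_trunc F)))
    rcases lt_or_ge (ex F) k0 with hlt | hge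
    · have h1 : h (ex F) ≤ B := Finset.single_le_sum (f := h) (fun _ _ => Nat.zero_le _)
        (Finset.mem_range.2 hlt)
      have h2 : c * h (ex F) ≤ c * B := Nat.mul_le_mul_left c h1
      exact h2.trans (by rw [Nat.add_assoc]; exact Nat.le_add_right _ _)
    · have h1 := hk0 _ hge
      rcases Nat.eq_zero_or_pos C with hC0 | hC0
      · subst hC0
        rw [Nat.zero_mul] at hCF
        have h3 : 2 ≤ ex F := by unfold ex; omega
        have h4 : 1 ≤ Nat.log 2 (ex F) := Nat.log_pos (by norm_num) h3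
        have h5 := Nat.mul_pos (by omega : 0 < ex F) h4
        omega
      · have h2 : C * (e * (c * h (ex F))) ≤ C * (F.length + 1) := by
          calc C * (e * (c * h (ex F))) = e * c * C * h (ex F) := by ring
            _ ≤ _ := h1.trans hCF
        have h3 : e * (c * h (ex F)) ≤ F.length + 1 := Nat.le_of_mul_le_mul_left h2 hC0
        have h4 : c * h (ex F) ≤ (F.length + 1) / e := by
          rw [Nat.le_div_iff_mul_le (by omega)]
          rw [Nat.mul_comm]; exact h3
        have h5 : (F.length + 1) / e ≤ F.length / e + 1 := by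
          rw [Nat.div_le_iff_le_mul_add_pred (by omega)]
          have := Nat.div_add_mod F.length e
          have h6 := Nat.mod_lt F.length (by omega : 0 < e)
          have h7 : e * (F.length / e + 1) = e * (F.length / e) + e := by ring
          omega
        omega
  refine ⟨d, M, Polynomial.C (2 ^ (c * B + 2)) * p, hd, fun F => runs_mono (hM F) ?_⟩
  rw [Polynomial.eval_mul, Polynomial.eval_C]
  calc 2 ^ (c * h (ex F)) * p.eval (bits F).length
      ≤ 2 ^ (c * B + 1 + (F.length / e + 1)) * p.eval (bits F).length :=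
        Nat.mul_le_mul_right _ (Nat.pow_le_pow_right (by norm_num) (key F))
    _ = _ := by
        have : c * B + 1 + (F.length / e + 1) = (c * B + 2) + F.length / e := by omega
        rw [this, pow_add]; ring

end Pool.Agent.NPC.H683SC
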