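import Pool.Agent.H683.SC.PStm

/-!
# The matrix of a program in polynomial time
-/

set_option autoImplicit false

namespace Pool.Agent.NPC.H683SC.PMat

open Pool.Agent.H633R2 Pool.Agent.H683.SC

abbrev St : Type := ℕ × List (ℕ × ℕ) × List (ℕ × ℕ)

variable {α : Type} [TEnc α]

theorem p_look {L : α → List (ℕ × ℕ)} {a : α → ℕ} (hL : Poly L) (ha : Poly a) :
    Poly (fun x => look (L x) (a x)) := by
  unfold look
  have h1 : Poly (fun x => ((L x).filter fun p => decide (p.1 = a x)).head?) :=
    Poly.head? (Poly.filter (l := L) (p := fun x p => decide (p.1 = a x)) hL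
      (Poly.decide_eq (Poly.fst (Poly.snd Poly.id)) (ha.comp (Poly.fst Poly.id))))
  refine (Poly.optCases (h := fun (_ : α) (p : ℕ × ℕ) => p.2) h1 (Poly.const 0)
    (Poly.snd (Poly.snd Poly.id))).congr fun x => ?_
  rw [List.head?_filter]
  cases (L x).find? (fun p => decide (p.1 = a x)) <;> rfl

theorem p_stp {s : α → St} {c : α → Cm} (hs : Poly s) (hc : Poly c) :
    Poly (fun x => stp (s x) (c x)) := by
  unfold stp
  have h1 : Poly (fun x => (s x).1) := Poly.fst hs
  have h2 : Poly (fun x => (s x).2.1) := Poly.fst (Poly.snd hs)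
  have h3 : Poly (fun x => (s x).2.2) := Poly.snd (Poly.snd hs)
  have h4 : Poly (fun x => (c x).1) := Poly.fst hc
  refine (Poly.optCases (o := fun x => (c x).2)
    (g := fun x => (((s x).1 + 1, ((c x).1, (s x).1) :: (s x).2.1, (s x).2.2) : St))
    (h := fun x b => (((s x).1 + 1, (s x).2.1, ((s x).1, look (s x).2.1 (c x).1) ::
      ((s x).1, look (s x).2.1 b) :: (s x).2.2) : St)) (Poly.snd hc) ?_ ?_).congr fun x => ?_
  · exact Poly.pair (Poly.add h1 (Poly.const 1)) (Poly.pair (Poly.cons (Poly.pair h4 h1) h2) h3)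
  · have f1 : Poly (fun y : α × ℕ => y.1) := Poly.fst Poly.id
    exact Poly.pair (Poly.add (h1.comp f1) (Poly.const 1)) (Poly.pair (h2.comp f1)
      (Poly.cons (Poly.pair (h1.comp f1) (p_look (h2.comp f1) (h4.comp f1)))
        (Poly.cons (Poly.pair (h1.comp f1) (p_look (h2.comp f1) (Poly.snd Poly.id)))
          (h3.comp f1))))
  · cases (c x).2 <;> rfl

theorem look_lt (L : List (ℕ × ℕ)) (n a : ℕ) (hn : 0 < n) (h : ∀ p ∈ L, p.2 < n) :
    look L a < n := by
  unfold look
  cases hf : L.find? (fun p => decide (p.1 = a)) with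
  | none => exact hn
  | some p => exact h p (List.mem_of_find?_eq_some hf)

theorem inv (cs : List Cm) : ∀ s : St, 0 < s.1 → (∀ p ∈ s.2.1, p.2 < s.1) →
    (∀ p ∈ s.2.2, p.1 < s.1 ∧ p.2 < s.1) → ∀ X, (∀ p ∈ s.2.1, sz p.1 ≤ X) →
    (∀ c ∈ cs, sz c ≤ X) →
    (cs.foldl stp s).1 = s.1 + cs.length ∧
    (∀ p ∈ (cs.foldl stp s).2.1, p.2 < (cs.foldl stp s).1 ∧ sz p.1 ≤ X) ∧
    (∀ p ∈ (cs.foldl stp s).2.2, p.1 < (cs.foldl stp s).1 ∧ p.2 < (cs.foldl stp s).1) ∧
    (cs.foldl stp s).2.1.length ≤ s.2.1.length + cs.length ∧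
    (cs.foldl stp s).2.2.length ≤ s.2.2.length + 2 * cs.length := by
  induction cs with
  | nil => intro s h0 h1 h2 X h3 _; exact ⟨rfl, fun p hp => ⟨h1 p hp, h3 p hp⟩, h2, le_rfl, le_rfl⟩
  | cons c cs ih =>
    intro s h0 h1 h2 X h3 h4
    rw [List.foldl_cons]
    obtain ⟨a, b⟩ := c
    obtain ⟨n, L, E⟩ := s
    have hc : sz (a, b) ≤ X := h4 _ List.mem_cons_self
    rw [sz_pair] at hc
    have hcs : ∀ c ∈ cs, sz c ≤ X := fun c hc => h4 c (List.mem_cons_of_mem _ hc)
    simp only at h0 h1 h2 h3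
    cases b with
    | none =>
      obtain ⟨e1, e2, e3, e4, e5⟩ := ih (n + 1, (a, n) :: L, E) (Nat.succ_pos _)
        (by
          intro p hp
          rcases List.mem_cons.1 hp with rfl | hp
          · exact Nat.lt_succ_self _
          · exact (h1 p hp).trans (Nat.lt_succ_self _))
        (fun p hp => ⟨(h2 p hp).1.trans (Nat.lt_succ_self _), (h2 p hp).2.trans
          (Nat.lt_succ_self _)⟩) X
        (by
          intro p hp
          rcases List.mem_cons.1 hp with rfl | hp
          · simp only; omega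
          · exact h3 p hp) hcs
      have e : stp (n, L, E) (a, none) = (n + 1, (a, n) :: L, E) := rfl
      rw [e]
      simp only [List.length_cons] at *
      exact ⟨by omega, e2, e3, by omega, by omega⟩
    | some b =>
      have hl : ∀ a, look L a < n := fun a => look_lt L n a h0 h1
      obtain ⟨e1, e2, e3, e4, e5⟩ := ih (n + 1, L, (n, look L a) :: (n, look L b) :: E)
        (Nat.succ_pos _) (fun p hp => (h1 p hp).trans (Nat.lt_succ_self _))
        (by
          intro p hp
          rcases List.mem_cons.1 hp with rfl | hp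
          · exact ⟨Nat.lt_succ_self _, (hl _).trans (Nat.lt_succ_self _)⟩
          · rcases List.mem_cons.1 hp with rfl | hp
            · exact ⟨Nat.lt_succ_self _, (hl _).trans (Nat.lt_succ_self _)⟩
            · exact ⟨(h2 p hp).1.trans (Nat.lt_succ_self _), (h2 p hp).2.trans
                (Nat.lt_succ_self _)⟩) X h3 hcs
      have e : stp (n, L, E) (a, some b) = (n + 1, L, (n, look L a) :: (n, look L b) :: E) := rfl
      rw [e]
      simp only [List.length_cons] at *
      exact ⟨by omega, e2, e3, by omega, by omega⟩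

theorem sz_lt_le {n X : ℕ} (h : n < X) : sz n ≤ 4 * X + 1 := by
  have h1 := sz_nat_le n
  have h2 : n.size ≤ n := Poly.size_le_self n
  omega

theorem bound (cs : List Cm) : sz (cs.foldl stp (1, [], [])) ≤
    (4 * (sz cs + 2) + 1) + (sz cs * (sz cs + (4 * (sz cs + 2) + 1) + 1 + 1) + 1) +
      (2 * sz cs * ((4 * (sz cs + 2) + 1) + (4 * (sz cs + 2) + 1) + 1 + 1) + 1) + 2 := by
  obtain ⟨e1, e2, e3, e4, e5⟩ := inv cs (1, [], []) (by norm_num) (by simp) (by simp) (sz cs)
    (by simp) (fun c hc => (sz_le_of_mem hc).le)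
  have hlen : cs.length < sz cs := length_lt_sz cs
  generalize cs.foldl stp (1, [], []) = s at *
  obtain ⟨n, L, E⟩ := s
  simp only [List.length_nil] at *
  rw [sz_pair, sz_pair]
  have hn : sz n ≤ 4 * (sz cs + 2) + 1 := sz_lt_le (by omega)
  have hL : sz L ≤ sz cs * (sz cs + (4 * (sz cs + 2) + 1) + 1 + 1) + 1 := by
    refine (sz_le_length_mul L (sz cs + (4 * (sz cs + 2) + 1) + 1) ?_).trans ?_
    · intro p hp
      obtain ⟨h1, h2⟩ := e2 p hp
      obtain ⟨a, b⟩ := p
      rw [sz_pair]
      have : sz b ≤ 4 * (sz cs + 2) + 1 := sz_lt_le (by simp only at h1; omega)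
      simp only at h2
      omega
    · exact Nat.add_le_add_right (Nat.mul_le_mul_right _ (by omega)) _
  have hE : sz E ≤ 2 * sz cs * ((4 * (sz cs + 2) + 1) + (4 * (sz cs + 2) + 1) + 1 + 1) + 1 := by
    refine (sz_le_length_mul E ((4 * (sz cs + 2) + 1) + (4 * (sz cs + 2) + 1) + 1) ?_).trans ?_
    · intro p hp
      obtain ⟨h1, h2⟩ := e3 p hp
      obtain ⟨a, b⟩ := p
      rw [sz_pair]
      have h3 : sz b ≤ 4 * (sz cs + 2) + 1 := sz_lt_le (by simp only at h2; omega)
      have h4 : sz a ≤ 4 * (sz cs + 2) + 1 := sz_lt_le (by simp only at h1; omega)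
      omega
    · exact Nat.add_le_add_right (Nat.mul_le_mul_right _ (by omega)) _
  omega

theorem p_run : Poly (fun cs : List Cm => run cs) := by
  unfold run
  refine Poly.foldl (l := fun cs : List Cm => cs) (s := fun _ => ((1, [], []) : St))
    (F := fun _ s c => stp s c) Poly.id (Poly.const _)
    (p_stp (Poly.fst (Poly.snd Poly.id)) (Poly.snd (Poly.snd Poly.id)))
    ((Polynomial.C 4 * (Polynomial.X + 2) + 1) + (Polynomial.X * (Polynomial.X +
      (Polynomial.C 4 * (Polynomial.X + 2) + 1) + 1 + 1) + 1) +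
      (Polynomial.C 2 * Polynomial.X * ((Polynomial.C 4 * (Polynomial.X + 2) + 1) +
        (Polynomial.C 4 * (Polynomial.X + 2) + 1) + 1 + 1) + 1) + 2) ?_
  intro cs k _
  refine (bound (cs.take k)).trans ?_
  have h : sz (cs.take k) ≤ sz cs := Poly.sz_take_le cs k
  simp only [Polynomial.eval_add, Polynomial.eval_mul, Polynomial.eval_C, Polynomial.eval_X,
    Polynomial.eval_one, Polynomial.eval_ofNat]
  generalize sz (cs.take k) = x at *
  generalize sz cs = y at *
  gcongr

theorem PMAT : S_PMAT := by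
  unfold S_PMAT matOf
  have hn : UPoly (fun cs : List Cm => (run cs).1) := by
    have e : (fun cs : List Cm => (run cs).1) = fun cs => 1 + cs.length := by
      funext cs
      exact (inv cs (1, [], []) (by norm_num) (by simp) (by simp) (sz cs)
        (by simp) (fun c hc => (sz_le_of_mem hc).le)).1
    rw [e]
    exact UPoly.add (UPoly.const 1) (UPoly.length Poly.id)
  have f1 : Poly (fun y : List Cm × ℕ => y.1) := Poly.fst Poly.id
  refine Poly.map (l := fun cs : List Cm => List.range (run cs).1) (F := fun cs u =>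
    (List.range (run cs).1).map fun v => decide ((u, v) ∈ (run cs).2.2)) (UPoly.range hn) ?_
  refine Poly.map (l := fun y : List Cm × ℕ => List.range (run y.1).1) (F := fun y v =>
    decide ((y.2, v) ∈ (run y.1).2.2)) (UPoly.range (hn.comp f1)) ?_
  refine (Poly.decide_mem (f := fun z : (List Cm × ℕ) × ℕ => (z.1.2, z.2))
    (l := fun z => (run z.1.1).2.2) ?_ ?_).congr fun z => decide_eq_decide.2 Iff.rfl
  · exact Poly.pair (Poly.snd (Poly.fst Poly.id)) (Poly.snd Poly.id)
  · exact Poly.snd (Poly.snd (Poly.comp (g := fun cs : List Cm => run cs)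
      (f := fun z : (List Cm × ℕ) × ℕ => z.1.1) p_run (Poly.fst (Poly.fst Poly.id))))

end Pool.Agent.NPC.H683SC.PMat
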