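import Pool.Agent.H683.SC.Main
import Pool.Agent.H348.SC_EXPR
import Pool.Agent.H161.SC_COMP
import Pool.Agent.H231.SC_PROG
import Pool.Agent.H638.SC_UNIF
import Pool.Agent.H241.SC_VALP
import Pool.Agent.H48.SC_COL
import Pool.Agent.H75.SC_SAT
import Pool.Agent.H234.SC_AR
import Pool.Agent.H612.SC_AR2
import Pool.Agent.H553.SC_POST
import Pool.Agent.H935.SC_PPAR
import Pool.Agent.H640.SC_PCF
import Pool.Agent.H124.SC_PPRG
import Pool.Agent.H683.SC.PMat
import Pool.Agent.H396.SC_PEXP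
import Pool.Agent.H105.SC_PPOST
import Pool.Agent.H322.SC_ECTM
import Pool.Agent.H876.SC_ECPAIR
import Pool.Agent.H670.SC_ECOUT

/-!
# Lower bounds for the subgraph component polynomial: assembly
-/

set_option autoImplicit false

namespace Pool.Agent.NPC.H683SC

open Turing Pool.Agent.H633R2 Pool.Agent.H683.MC Pool.Agent.H683.SC

theorem base : Base := fun h hS =>
  main0 Pool.Agent.NPC.H348.EXPR Pool.Agent.H161.SCC.COMP Pool.Agent.H231.SCPROG.PROG
    Pool.Agent.H638.SCUNIF.UNIF Pool.Agent.H241.SCVALP.VALP Pool.Agent.H48.SCcol.COL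
    Pool.Agent.H75.SCSat.SAT Pool.Agent.NPC.H553POST.POST Pool.Agent.NPC.H935SC.PPAR
    Pool.Agent.NPC.H640SC.PCF Pool.Agent.NPC.H124SC.PPRG PMat.PMAT
    Pool.Agent.NPC.H396SC.PEXP Pool.Agent.NPC.H105SC.PPOST Pool.Agent.NPC.H322SC.ECTM
    Pool.Agent.NPC.H876SC.ECPAIR Pool.Agent.NPC.H670SC.ECOUT h hS

theorem neg1 : ScpSinglyExponential → ThreeSatFast := fast base Pool.Agent.H234.SCAR.AR

theorem neg2 (h : ℕ → ℕ) (hh : LittleO h) (hS : ScpTime h) : ThreeSatSubexp :=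
  subexp base Pool.Agent.H612.SCAR2.AR2 h hh hS

end Pool.Agent.NPC.H683SC
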