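import Pool.Agent.H683.SC.Stm
import Pool.Graph.R_seed8.H633R2.Fpt

/-!
# The subgraph component polynomial: statements about running times
-/

set_option autoImplicit false

namespace Pool.Agent.H683.SC

open Turing Pool.Agent.NPC Pool.Agent.H633R2 Pool.Agent.H683.MC

/-- The numbers `KOf F` and `gOf F` can be computed in unary in polynomial time (`KOf F` is at most
`8 * (F.length + 1)`: it is the length of the list of the `i < 8 * (F.length + 1)` with
`i < KOf F`; compare `uPoly_gsz` in `MC/SatPoly.lean`). -/
def S_PPAR : Prop := UPoly KOf ∧ UPoly gOf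

/-- The list of conflicts can be computed in polynomial time (`poly_opts` in `MC/SatPoly.lean`
needs a pad of length at least `KOf F`, for example a list of that length). -/
def S_PCF : Prop := Poly (fun F : {F : Cnf // IsThree F} => cfOf F.1)

/-- The program can be computed in polynomial time. -/
def S_PPRG : Prop := ∀ (α : Type) [TEnc α] (K g : α → ℕ) (cf : α → List ((ℕ × ℕ) × (ℕ × ℕ))),
  UPoly K → UPoly g → Poly cf → Poly (fun a => low (prog (K a) (g a) (cf a)))

/-- The matrix can be computed in polynomial time. -/
def S_PMAT : Prop := Poly (fun cs : List Cm => matOf cs)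

/-- The expression can be computed in polynomial time (`TEnc KExp` is given by `KExp.tree`, so the
constructors are compositions of `T.node`; `Poly.node` and a fold with a size bound). -/
def S_PEXP : Prop := ∀ (α : Type) [TEnc α] (k : α → ℕ) (cs : α → List Cm), Poly k → Poly cs →
  Poly (fun a => expOf (k a) (cs a))

/-- The test can be computed in polynomial time. -/
def S_PPOST : Prop := ∀ (α : Type) [TEnc α] (q m : α → ℕ) (tab : α → List (List ℕ)),
  UPoly q → UPoly m → Poly tab → Poly (fun a => post (q a) (m a) (tab a))

/-- Computability in time `2 ^ O(E a) * |a| ^ O(1)` by programs. -/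
def EC {α β : Type} (ea : α → List Bool) (eb : β → List Bool) (E : α → ℕ) (f : α → β) : Prop :=
  ∃ (c : Cmd ℕ) (C : ℕ) (p : Polynomial ℕ),
    ∀ a, Runs c (inp (ea a)) (inp (eb (f a))) (2 ^ (C * E a) * p.eval (ea a).length)

/-- First a polynomial time reduction, then a Turing machine (`toCmd` in `H633R2/TmTime.lean`, used
with `ea = fun a => bits (r a)`). -/
def S_ECTM : Prop := ∀ (α β γ : Type) [TEnc α] [TEnc β] [TEnc γ] (E : α → ℕ) (r : α → β) (f : α → γ)
  (A : TM2ComputableAux Bool Bool) (c : ℕ) (p : Polynomial ℕ), Poly r →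
  (∀ a, TmRuns A (bits (r a)) (bits (f a)) (2 ^ (c * E a) * p.eval (bits (r a)).length)) →
  EC (bits : α → List Bool) (bits : γ → List Bool) E f

/-- Keeping the input (as `FC.node` and `FptTime.pair` in `H633R2/Fpt.lean`). -/
def S_ECPAIR : Prop := ∀ (α γ : Type) [TEnc α] [TEnc γ] (E : α → ℕ) (f : α → γ),
  EC (bits : α → List Bool) (bits : γ → List Bool) E f →
  EC (bits : α → List Bool) (bits : α × γ → List Bool) E (fun a => (a, f a))

/-- A polynomial time function afterwards (as `FC.comp`), and back to Turing machines (`toTm`). -/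
def S_ECOUT : Prop := ∀ (α β γ : Type) [TEnc α] [TEnc β] [TEnc γ] (E : α → ℕ) (f : α → β)
  (g : β → γ), EC (bits : α → List Bool) (bits : β → List Bool) E f → Poly g →
  ∃ (A : TM2ComputableAux Bool Bool) (c : ℕ) (p : Polynomial ℕ),
    ∀ a, TmRuns A (bits a) (bits (g (f a))) (2 ^ (c * E a) * p.eval (bits a).length)

end Pool.Agent.H683.SC
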