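import Pool.Agent.H683.SC.PosTime
import Pool.Agent.H106.SP_ZVR
import Pool.Agent.H874.SP_ZU
import Pool.Agent.H670.SP_ZJ
import Pool.Agent.H404.SP_ZP
import Pool.Agent.H720.SP_ZF
import Pool.Agent.H578.SP_WZ
import Pool.Agent.H80.SP_TAB
import Pool.Agent.H16.SP_DIG
import Pool.Agent.H945.SP_CORR
import Pool.Agent.H48.SP_PTOK
import Pool.Agent.H409.SP_PSTS
import Pool.Agent.H924.SP_PTST
import Pool.Agent.H254.SP_SZS
import Pool.Agent.H767.SP_PDIG

/-!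
# The algorithm for the subgraph component polynomial: assembly
-/

set_option autoImplicit false

namespace Pool.Agent.NPC.H683SC

open Pool.Agent.H683.SC

theorem upper : ∃ C : ℕ, ScpTime (fun k => C * (k * Nat.log 2 k + 1)) :=
  pos Pool.Agent.NPC.H48SP.PTOK
    (Pool.Agent.NPC.H767SP.PDIG Pool.Agent.NPC.H924SP.PTST Pool.Agent.NPC.H254SP.SZS
      Pool.Agent.NPC.H409SP.PSTS)
    (Pool.Agent.H945.SP.CORR
      (Pool.Agent.H578.SPWZ.WZ Pool.Agent.H106.SPZVR.ZV Pool.Agent.H106.SPZVR.ZR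
        Pool.Agent.H874.SP.ZU Pool.Agent.H670.SPZJ.ZJ Pool.Agent.H404.SPZP.ZP)
      Pool.Agent.H720.SPZF.ZF Pool.Agent.H80.SPTAB.TAB Pool.Agent.H16.SPDIG.DIG)

end Pool.Agent.NPC.H683SC
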