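import Pool.Agent.H683.SC.PosStm
import Pool.Graph.R_seed8.H628R2.FPTW

/-!
# The algorithm for the subgraph component polynomial: statements about running times
-/

set_option autoImplicit false

namespace Pool.Agent.H683.SC

open Turing Pool.Agent.NPC Pool.Agent.H633R2 Pool.Agent.H683.MC

/-- The letters can be computed in polynomial time (`TEnc KExp` is given by `KExp.tree`). For example
with a list of terms still to be read (top first) and the letters found so far, for as many
steps as the size of the code; in preorder the letters come in the reverse order if the
second part of a union is read first. -/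
def S_PTOK : Prop := Poly (fun t : KExp => t.toks)

/-- The list of all states, given a pad. -/
def S_PSTS : Prop := ∀ (α : Type) [TEnc α] (kk : α → ℕ) (w : α → List Unit), UPoly kk → Poly w →
  (∀ a, (kk a + 2) ^ kk a ≤ (w a).length) → Poly (fun a => sts (kk a) (kk a))

/-- One letter. -/
def S_PTST : Prop := ∀ (α : Type) [TEnc α] (D : α → List ℕ) (X q : α → ℕ)
  (st s : α → List (List ℕ)) (o : α → ℕ × ℕ × ℕ), Poly D → Poly X → Poly q → Poly st → Poly s →
  Poly o → Poly (fun a => tst (D a) (X a) (q a) (st a) (s a) (o a))

/-- A bound for the size of the stack: the sum over the tables in the stack of the number of bits of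
the largest entry (plus one) grows by at most a polynomial in each step (it is additive for
`o.1 = 1`, and for `o.1 = 2` the entries grow by a factor of at most `4 * (q + kk + 1)`). -/
def S_SZS : Prop := ∃ P : Polynomial ℕ, ∀ (D : List ℕ) (X q : ℕ) (st : List (List ℕ))
  (w : List (ℕ × ℕ × ℕ)),
  sz (w.foldl (tst D X q st) []) ≤ P.eval (sz D + sz X + sz q + sz st + sz w)

/-- The fold is computed in polynomial time, given a pad (from `S_PTST`, `S_SZS`, `S_PSTS`), and so
is the list of the digits. -/
def S_PDIG : Prop := Poly (fun x : {x : List (ℕ × ℕ × ℕ) × List Unit //
  2 ^ ((tlab x.1).length * Nat.size ((tlab x.1).length + 2)) ≤ x.2.length} => digs x.1.1)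

end Pool.Agent.H683.SC
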