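import Pool.Agent.H683.SC.Stm
import Pool.Agent.H683.SC.Defs2
import Pool.Agent.H683.MC.Brute

/-!
# The subgraph component polynomial: an algorithm with running time `2 ^ O(k log k) * N ^ O(1)`

`Zt t S X` is the sum of `X ^ |A|` over all sets `A` of vertices and all maps from `A` to `Fin q` that
are constant on the components of `G[A]`, where vertices with label `l` may only get colors `c`
with `S l c`. For `S = everything` it is the value of the polynomial at `x = X`, `y = q`. It
satisfies simple recursions; only sets `S l` that are empty, everything or one of the first `k`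
colors are needed. The coefficients are the digits of the value for large `q` and `X`.
-/

set_option autoImplicit false

namespace Pool.Agent.H683.SC

open Turing Pool.Agent.NPC Pool.Agent.H633R2 Pool.Agent.H683.MC

open Classical in
/-- The restricted state sum of a term. -/
noncomputable def Zt {q : ℕ} (t : KExp) (S : ℕ → Fin q → Prop) (X : ℤ) : ℤ :=
  ∑ f : Fin t.labs.length → Option (Fin q),
    if (∀ u v : Fin t.labs.length, t.Adj u v → cmp (f u) (f v)) ∧
      (∀ (v : Fin t.labs.length) (c : Fin q), f v = some c → S (t.labs.get v) c) then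
      ∏ v, (if f v = none then 1 else X) else 0

open Classical in
/-- Recursions for single vertices and for relabelling. -/
def S_ZV : Prop := ∀ (q a : ℕ) (S : ℕ → Fin q → Prop) (X : ℤ),
  Zt (KExp.vtx a) S X = 1 + X * ((Finset.univ.filter fun c => S a c).card : ℤ)

def S_ZR : Prop := ∀ (q a b : ℕ) (t : KExp) (S : ℕ → Fin q → Prop) (X : ℤ),
  Zt (KExp.relab a b t) S X = Zt t (Function.update S a (S b)) X

/-- Recursion for disjoint unions. -/
def S_ZU : Prop := ∀ (q : ℕ) (s t : KExp) (S : ℕ → Fin q → Prop) (X : ℤ),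
  Zt (KExp.union s t) S X = Zt s S X * Zt t S X

/-- The set of labels `a`, `b` is restricted further. -/
def up2 {q : ℕ} (S : ℕ → Fin q → Prop) (a b : ℕ) (A B : Fin q → Prop) : ℕ → Fin q → Prop :=
  Function.update (Function.update S a A) b B

/-- No color. -/
def noc {q : ℕ} : Fin q → Prop := fun _ => False

/-- One color. -/
def onc {q : ℕ} (c : Fin q) : Fin q → Prop := fun d => d = c

open Classical in
/-- Recursion for joins (inclusion and exclusion: let `C_a`, `C_b` be the sets of the colors of the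
vertices with label `a`, `b`; the new condition is `C_a = ∅`, or `C_b = ∅`, or
`C_a = C_b = {c}` for some `c`). -/
def S_ZJ : Prop := ∀ (q a b : ℕ) (t : KExp) (S : ℕ → Fin q → Prop) (X : ℤ), a ≠ b →
  Zt (KExp.join a b t) S X = Zt t (up2 S a b noc (S b)) X + Zt t (up2 S a b (S a) noc) X -
    Zt t (up2 S a b noc noc) X + ∑ c : Fin q, if S a c ∧ S b c then
      Zt t (up2 S a b (onc c) (onc c)) X - Zt t (up2 S a b (onc c) noc) X -
      Zt t (up2 S a b noc (onc c)) X + Zt t (up2 S a b noc noc) X else 0

/-- Permuting the colors. -/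
def S_ZP : Prop := ∀ (q : ℕ) (t : KExp) (S : ℕ → Fin q → Prop) (X : ℤ) (π : Equiv.Perm (Fin q)),
  Zt t (fun l c => S l (π c)) X = Zt t S X

/-- The value of the polynomial (as `S_COMP`, with `X` for `-1`; see
`Pool/Agent/H161/SC_COMP.lean`). -/
def S_ZF : Prop := ∀ (k q : ℕ) (M : List (List Bool)) (t : KExp) (X : ℤ), IsKExp k M t →
  Zt (q := q) t (fun _ _ => True) X = ∑ i ∈ Finset.range (M.length + 1),
    ∑ j ∈ Finset.range (M.length + 1), X ^ i * (q : ℤ) ^ j * (qco M i j : ℤ)

/-! ### The recursion with numbers -/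

/-- The number of colors allowed by a code (`0`: none, `1`: all, `c + 2`: only `c`). -/
def szS (q s : ℕ) : ℕ := if s = 0 then 0 else if s = 1 then q else 1

/-- Is the color `c` allowed by the code `s`? -/
def cod (s c : ℕ) : Prop := s = 1 ∨ s = c + 2

/-- The first color below `kk` that does not occur in `σ`. -/
def frs (kk : ℕ) (σ : List ℕ) : ℕ :=
  match (List.range kk).find? fun c => !decide (c + 2 ∈ σ) with
  | some c => c
  | none => 0

/-- The colors allowed by both codes, with multiplicities (the color `fr` stands for all colors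
that are at least `kk`). -/
def cols (kk q x y fr : ℕ) : List (ℕ × ℕ) :=
  if x = 0 ∨ y = 0 then [] else
  if x = 1 then
    (if y = 1 then (List.range kk).map fun c => (c, if c = fr then 1 + (q - kk) else 1)
      else [(y - 2, 1)]) else
  if y = 1 ∨ x = y then [(x - 2, 1)] else []

/-- The recursion for joins. -/
def jn (N : ℕ → ℕ → ℕ) (x y : ℕ) (cs : List (ℕ × ℕ)) : ℕ :=
  (N 0 y + N x 0 + (cs.map fun c => c.2 * (N (c.1 + 2) (c.1 + 2) + N 0 0)).sum) -
    (N 0 0 + (cs.map fun c => c.2 * (N (c.1 + 2) 0 + N 0 (c.1 + 2))).sum)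

/-- The value for a join, from the values `N σ` for the term. -/
def jv (D : List ℕ) (q : ℕ) (N : List ℕ → ℕ) (a b : ℕ) (σ : List ℕ) : ℕ :=
  jn (fun x y => N ((σ.set (D.idxOf a) x).set (D.idxOf b) y)) (σ.getD (D.idxOf a) 0)
    (σ.getD (D.idxOf b) 0) (cols D.length q (σ.getD (D.idxOf a) 0) (σ.getD (D.idxOf b) 0)
      (frs D.length ((σ.set (D.idxOf a) 0).set (D.idxOf b) 0)))

/-- The values `Zt` for the states `σ` (`σ` gives the code of each label in the list `D`). -/
def W (D : List ℕ) (X q : ℕ) : KExp → List ℕ → ℕ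
  | KExp.vtx a, σ => 1 + X * szS q (σ.getD (D.idxOf a) 0)
  | KExp.union s t, σ => W D X q s σ * W D X q t σ
  | KExp.join a b t, σ => jv D q (W D X q t) a b σ
  | KExp.relab a b t, σ => W D X q t (σ.set (D.idxOf a) (σ.getD (D.idxOf b) 0))

/-- The labels that occur in a term. -/
def KExp.lbs : KExp → List ℕ
  | vtx a => [a]
  | union s t => s.lbs ++ t.lbs
  | join a b t => a :: b :: t.lbs
  | relab a b t => a :: b :: t.lbs

/-- Correct states. -/
def StOk (kk : ℕ) (σ : List ℕ) : Prop := σ.length = kk ∧ ∀ s ∈ σ, s < kk + 2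

/-- The numbers are the restricted state sums. Induction on the term. For a join with both codes `1`,
the sum over the colors `c ≥ kk` is replaced by the color `fr`, which does not occur in `σ`
(outside `a`, `b`; there are at most `kk - 2` other codes), with the permutation that exchanges
`c` and `fr` (`S_ZP`). The subtraction in `jn` is exact, as `Zt` of the join is not negative
for `0 ≤ X`. -/
def S_WZ : Prop := ∀ (D : List ℕ) (X q k : ℕ) (t : KExp) (σ : List ℕ), D.Nodup → t.Ok k →
  (∀ a ∈ t.lbs, a ∈ D) → D.length ≤ q → StOk D.length σ →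
  (W D X q t σ : ℤ) = Zt (q := q) t (fun l c => cod (σ.getD (D.idxOf l) 0) c) X

/-! ### Tables -/

/-- The term as a list of letters, in postfix order. -/
def KExp.toks : KExp → List (ℕ × ℕ × ℕ)
  | vtx a => [(0, a, a)]
  | union s t => s.toks ++ (t.toks ++ [(1, 0, 0)])
  | join a b t => t.toks ++ [(2, a, b)]
  | relab a b t => t.toks ++ [(3, a, b)]

/-- All lists of `j` codes. -/
def sts (kk : ℕ) : ℕ → List (List ℕ)
  | 0 => [[]]
  | j + 1 => (sts kk j).flatMap fun σ => (List.range (kk + 2)).map fun c => c :: σ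

/-- Looking up a value. -/
def lk (st : List (List ℕ)) (tb : List ℕ) (σ : List ℕ) : ℕ :=
  match (st.zip tb).find? fun p => decide (p.1 = σ) with
  | some p => p.2
  | none => 0

/-- Reading a letter with a stack of tables. -/
def tst (D : List ℕ) (X q : ℕ) (st : List (List ℕ)) (s : List (List ℕ)) (o : ℕ × ℕ × ℕ) :
    List (List ℕ) :=
  if o.1 = 0 then (st.map fun σ => 1 + X * szS q (σ.getD (D.idxOf o.2.1) 0)) :: s else
  if o.1 = 1 then (st.map fun σ => lk st (s.getD 1 []) σ * lk st (s.getD 0 []) σ) :: s.drop 2 else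
  if o.1 = 2 then (st.map fun σ => jv D q (lk st (s.getD 0 [])) o.2.1 o.2.2 σ) :: s.drop 1 else
  (st.map fun σ => lk st (s.getD 0 []) (σ.set (D.idxOf o.2.1) (σ.getD (D.idxOf o.2.2) 0))) ::
    s.drop 1

/-- The tables are correct. (`sts kk kk` is the list of all correct states, without repetitions.) -/
def S_TAB : Prop := ∀ (D : List ℕ) (X q : ℕ) (t : KExp) (s : List (List ℕ)), D.Nodup →
  (∀ a ∈ t.lbs, a ∈ D) → D.length ≤ q →
  t.toks.foldl (tst D X q (sts D.length D.length)) s =
    ((sts D.length D.length).map (W D X q t)) :: s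

/-- The labels of a list of letters. -/
def tlab (w : List (ℕ × ℕ × ℕ)) : List ℕ :=
  Pool.Agent.NPC.H683MC.ded (w.flatMap fun o => if o.1 = 1 then [] else [o.2.1, o.2.2])

/-- The number of vertices. -/
def nvt (w : List (ℕ × ℕ × ℕ)) : ℕ := (w.filter fun o => decide (o.1 = 0)).length

/-- The value for `y`. -/
def qq (w : List (ℕ × ℕ × ℕ)) : ℕ := 2 ^ (nvt w + (tlab w).length + 1)

/-- The value for `x`. -/
def XX (w : List (ℕ × ℕ × ℕ)) : ℕ := 2 ^ ((nvt w + (tlab w).length + 1) * (nvt w + 1))

/-- The value of the polynomial. -/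
def valt (w : List (ℕ × ℕ × ℕ)) : ℕ :=
  lk (sts (tlab w).length (tlab w).length)
    ((w.foldl (tst (tlab w) (XX w) (qq w) (sts (tlab w).length (tlab w).length)) []).getD 0 [])
    (List.replicate (tlab w).length 1)

/-- The coefficients. -/
def digs (w : List (ℕ × ℕ × ℕ)) : List (List ℕ) :=
  (List.range (nvt w + 1)).map fun i => (List.range (nvt w + 1)).map fun j =>
    valt w / XX w ^ i % XX w / qq w ^ j % qq w

/-- Digits. -/
def S_DIG : Prop := ∀ (n q : ℕ) (a : ℕ → ℕ → ℕ), (∀ i j, a i j < q) → ∀ i ≤ n, ∀ j ≤ n,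
  (∑ i ∈ Finset.range (n + 1), ∑ j ∈ Finset.range (n + 1), (q ^ (n + 1)) ^ i * q ^ j * a i j) /
    (q ^ (n + 1)) ^ i % q ^ (n + 1) / q ^ j % q = a i j

/-- The algorithm is correct (from `S_WZ`, `S_ZF`, `S_TAB`, `S_DIG`; the coefficients are at most
`2 ^ n`). -/
def S_CORR : Prop := ∀ (k : ℕ) (M : List (List Bool)) (t : KExp), IsKExp k M t →
  digs t.toks = qtab M ∧ (tlab t.toks).length ≤ k

end Pool.Agent.H683.SC
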