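import Pool.Agent.H683.SC.PosPStm
import Pool.Agent.H683.MC.Main

/-!
# The algorithm for the subgraph component polynomial: running time
-/

set_option autoImplicit false

namespace Pool.Agent.NPC.H683SC

open Turing Pool.Agent.H633R2 Pool.Agent.H683.MC Pool.Agent.H683.SC Pool.Agent.NPC.H683MC

theorem poly_tlab : Poly (fun w : List (ℕ × ℕ × ℕ) => tlab w) := by
  unfold tlab
  refine Poly.comp (g := fun l : List ℕ => ded l) (f := fun w : List (ℕ × ℕ × ℕ) =>
    w.flatMap fun o => if o.1 = 1 then [] else [o.2.1, o.2.2]) poly_ded ?_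
  refine Poly.flatMap (l := fun w : List (ℕ × ℕ × ℕ) => w)
    (F := fun _ o => if o.1 = 1 then [] else [o.2.1, o.2.2]) Poly.id ?_
  exact Poly.ite (p := fun y : List (ℕ × ℕ × ℕ) × (ℕ × ℕ × ℕ) => y.2.1 = 1)
    (Poly.decide_eq (Poly.fst (Poly.snd Poly.id)) (Poly.const 1)) (Poly.const [])
    (Poly.cons (Poly.fst (Poly.snd (Poly.snd Poly.id)))
      (Poly.cons (Poly.snd (Poly.snd (Poly.snd Poly.id))) (Poly.const [])))

/-- The exponent of the pad. -/
def mm (n : ℕ) : ℕ := n * Nat.size (n + 2)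

theorem mm_le {n k : ℕ} (h : n ≤ k) : mm n ≤ 3 * (k * Nat.log 2 k) + 2 := by
  have h1 : mm n ≤ mm k := Nat.mul_le_mul h (Nat.size_le_size (by omega))
  refine h1.trans ?_
  unfold mm
  rcases Nat.lt_or_ge k 2 with hk | hk
  · have : k = 0 ∨ k = 1 := by omega
    rcases this with rfl | rfl
    · simp
    · have : Nat.size (1 + 2) = 2 := by decide
      rw [this]; simp
  · have hL : 1 ≤ Nat.log 2 k := Nat.log_pos (by norm_num) hk
    have h2 : k < 2 ^ (Nat.log 2 k + 1) := Nat.lt_pow_succ_log_self (by norm_num) k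
    have h3 : Nat.size (k + 2) ≤ Nat.log 2 k + 2 := by
      rw [Nat.size_le]
      have : 2 ^ (Nat.log 2 k + 2) = 2 * 2 ^ (Nat.log 2 k + 1) := by rw [pow_succ]; ring
      omega
    calc k * Nat.size (k + 2) ≤ k * (3 * Nat.log 2 k) := Nat.mul_le_mul_left _ (by omega)
      _ = 3 * (k * Nat.log 2 k) := by ring
      _ ≤ _ := Nat.le_add_right _ _

theorem upoly_mm {α : Type} [TEnc α] {n : α → ℕ} (hn : UPoly n) : UPoly (fun a => mm (n a)) := by
  unfold mm
  refine UPoly.mul hn ?_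
  have h : UPoly (fun a => (n a + 2).bits.length) :=
    UPoly.length (Poly.natBits (Poly.add hn.toPoly (Poly.const 2)))
  have e : (fun a => Nat.size (n a + 2)) = fun a => (n a + 2).bits.length := by
    funext a
    rw [Nat.size_eq_bits_len]
  rw [e]
  exact h

attribute [local irreducible] tlab digs KExp.toks

/-- Inputs. -/
abbrev In : Type := List (List Bool) × KExp

/-- The number of labels. -/
def kap (x : In) : ℕ := (tlab x.2.toks).length

theorem upoly_kap (hPTOK : S_PTOK) : UPoly kap := by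
  unfold kap
  have h1 : Poly (fun x : In => x.2.toks) :=
    Poly.comp (g := fun t : KExp => t.toks) (f := fun x : In => x.2) hPTOK (Poly.snd Poly.id)
  exact UPoly.length (Poly.comp (g := fun w : List (ℕ × ℕ × ℕ) => tlab w)
      (f := fun x : In => x.2.toks) poly_tlab h1)

/-- Inputs with a pad. -/
abbrev InP : Type := {x : In × List Unit // 2 ^ (mm (kap x.1)) ≤ x.2.length}

/-- Letters with a pad. -/
abbrev WP : Type := {x : List (ℕ × ℕ × ℕ) × List Unit //
  2 ^ ((tlab x.1).length * Nat.size ((tlab x.1).length + 2)) ≤ x.2.length}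

theorem wp_ok (x : InP) : 2 ^ ((tlab x.1.1.2.toks).length *
    Nat.size ((tlab x.1.1.2.toks).length + 2)) ≤ x.1.2.length := x.2

/-- The change of the inputs. -/
def toWP (x : InP) : WP := ⟨(x.1.1.2.toks, x.1.2), wp_ok x⟩

theorem poly_toWP (hPTOK : S_PTOK) : Poly toWP := by
  have h0 : Poly (fun x : InP => x.1) := Poly.val _
  have h2 : Poly (fun x : InP => x.1.1.2) := Poly.snd (Poly.fst h0)
  have h3 : Poly (fun x : InP => x.1.1.2.toks) :=
    Poly.comp (g := fun t : KExp => t.toks) (f := fun x : InP => x.1.1.2) hPTOK h2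
  have h4 : Poly (fun x : InP => (x.1.1.2.toks, x.1.2)) := Poly.pair h3 (Poly.snd h0)
  exact h4

theorem poly_g (hPTOK : S_PTOK) (hPDIG : S_PDIG) : Poly (fun x : InP => digs x.1.1.2.toks) := by
  have h : Poly (fun x : InP => digs (toWP x).1.1) :=
    Poly.comp (g := fun x : WP => digs x.1.1) (f := toWP) hPDIG (poly_toWP hPTOK)
  exact h

theorem runs_g (hPTOK : S_PTOK) (hPDIG : S_PDIG) :
    ∃ (A : TM2ComputableAux Bool Bool) (P : Polynomial ℕ), ∀ x : In,
      TmRuns A (bits x) (bits (digs x.2.toks))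
        (P.eval ((bits x).length + 2 ^ (2 * mm (kap x) + 4)) + 1) := by
  obtain ⟨c, P, hrun⟩ := fpt_run (fun x : In => digs x.2.toks) kap mm
    (upoly_mm (upoly_kap hPTOK)) (poly_g hPTOK hPDIG)
  obtain ⟨A, hA⟩ := toTm (f := fun x : In => digs x.2.toks) c _ hrun
  exact ⟨A, P, hA⟩

/-- **The upper bound**, from the lemmas. -/
theorem pos (hPTOK : S_PTOK) (hPDIG : S_PDIG) (hCORR : S_CORR) :
    ∃ C : ℕ, ScpTime (fun k => C * (k * Nat.log 2 k + 1)) := by
  obtain ⟨A, P, hA⟩ := runs_g hPTOK hPDIG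
  refine ⟨8 * P.natDegree, A, P.comp (Polynomial.X + 1) + 1, fun k M t hkt => ?_⟩
  obtain ⟨h1, h2⟩ := hCORR k M t hkt
  have h2' : kap (M, t) ≤ k := h2
  have h3 : TmRuns A (bits (M, t)) (bits (digs t.toks))
      (P.eval ((bits (M, t)).length + 2 ^ (2 * mm (kap (M, t)) + 4)) + 1) := hA (M, t)
  rw [h1] at h3
  obtain ⟨h4⟩ := h3
  refine ⟨outputs_conv rfl rfl ?_ h4⟩
  generalize kap (M, t) = kk at *
  have h5 := eval_shift P (bits (M, t)).length (E := 2 ^ (2 * mm kk + 4)) Nat.one_le_two_pow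
  have h6 := mm_le h2'
  have h7 : (2 ^ (2 * mm kk + 4)) ^ P.natDegree ≤
      2 ^ (8 * P.natDegree * (k * Nat.log 2 k + 1)) := by
    rw [← pow_mul]
    refine Nat.pow_le_pow_right (by norm_num) ?_
    calc (2 * mm kk + 4) * P.natDegree
        ≤ (8 * (k * Nat.log 2 k + 1)) * P.natDegree := Nat.mul_le_mul_right _ (by omega)
      _ = _ := by ring
  have h8 : 1 ≤ 2 ^ (8 * P.natDegree * (k * Nat.log 2 k + 1)) := Nat.one_le_two_pow
  rw [Polynomial.eval_add, Polynomial.eval_one, Nat.mul_add, Nat.mul_one]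
  exact Nat.add_le_add (h5.trans (Nat.mul_le_mul_right _ h7)) h8

end Pool.Agent.NPC.H683SC
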