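import Pool.Agent.H683.SC.Defs
import Pool.Agent.H683.MC.SatPoly

/-!
# The subgraph component polynomial: the reduction and the statements of the lemmas

A program `cs` is a list of commands: `(a, none)` creates a new vertex with label `a` (it replaces
the previous vertex with this label), `(a, some b)` creates a vertex that is adjacent to the current
vertex with label `a` and to the current vertex with label `b` (a subdivided edge). At the
beginning there is one vertex, number `0`, with label `0`. The graph of a program is a
subdivided graph. At `x = -1` its subgraph component polynomial is, up to sign and a known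
term, the chromatic polynomial of the graph before the subdivision.
-/

set_option autoImplicit false

namespace Pool.Agent.H683.SC

open Turing Pool.Agent.NPC Pool.Agent.H633R2 Pool.Agent.H683.MC

/-- Commands. -/
abbrev Cm : Type := ℕ × Option ℕ

/-- The current vertex with label `a` (`L` is the list of the pairs (label, vertex), the latest
first). -/
def look (L : List (ℕ × ℕ)) (a : ℕ) : ℕ :=
  match L.find? fun p => decide (p.1 = a) with
  | some p => p.2
  | none => 0

/-- One command; the state is the number of vertices, the list of labels and the list of edges. -/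
def stp (s : ℕ × List (ℕ × ℕ) × List (ℕ × ℕ)) (c : Cm) : ℕ × List (ℕ × ℕ) × List (ℕ × ℕ) :=
  match c.2 with
  | none => (s.1 + 1, (c.1, s.1) :: s.2.1, s.2.2)
  | some b => (s.1 + 1, s.2.1, (s.1, look s.2.1 c.1) :: (s.1, look s.2.1 b) :: s.2.2)

/-- The graph of a program. -/
def run (cs : List Cm) : ℕ × List (ℕ × ℕ) × List (ℕ × ℕ) := cs.foldl stp (1, [], [])

/-- The matrix of the graph of a program. -/
def matOf (cs : List Cm) : List (List Bool) :=
  (List.range (run cs).1).map fun u => (List.range (run cs).1).map fun v =>
    decide ((u, v) ∈ (run cs).2.2)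

/-- One command, for expressions; the labels of the program are below `k`, the label `k` is used for
the new vertex on a subdivided edge and `k + 1` for vertices that are not needed any more. -/
def stE (k : ℕ) (t : KExp) (c : Cm) : KExp :=
  match c.2 with
  | none => KExp.union (KExp.relab c.1 (k + 1) t) (KExp.vtx c.1)
  | some b => KExp.relab k (k + 1) (KExp.join k b (KExp.join k c.1 (KExp.union t (KExp.vtx k))))

/-- The expression for the graph of a program. -/
def expOf (k : ℕ) (cs : List Cm) : KExp := cs.foldl (stE k) (KExp.vtx 0)

/-- The program uses only labels below `k`, and labels only after they have been created (`crt` is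
the list of the labels created). -/
def ValL (k : ℕ) : List ℕ → List Cm → Prop
  | _, [] => True
  | crt, (a, none) :: cs => a < k ∧ ValL k (a :: crt) cs
  | crt, (a, some b) :: cs => a ∈ crt ∧ b ∈ crt ∧ a ≠ b ∧ ValL k crt cs

/-- The expression is correct (induction on the program from the right: the vertex `v` has the label
`a` iff it is the current vertex with label `a` and `a` has been created; all other vertices have
the label `k + 1`). -/
def S_EXPR : Prop := ∀ (k : ℕ) (cs : List Cm), 0 < k → ValL k [0] cs →
  IsKExp (k + 2) (matOf cs) (expOf k cs)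

/-! ### State sums -/

/-- The weight of the state of a vertex (`none`: not in the set `A`; `some c`: in `A`, and its
component of `G[A]` has the color `c`). -/
def wgt {q : ℕ} (s : Option (Fin q)) : ℤ := if s = none then 1 else -1

/-- Compatible states of adjacent vertices. -/
def cmp {q : ℕ} (s s' : Option (Fin q)) : Prop := s = none ∨ s' = none ∨ s = s'

instance {q : ℕ} (s s' : Option (Fin q)) : Decidable (cmp s s') := by unfold cmp; infer_instance

/-- The weight of a subdivided edge, given the states of its ends. -/
def edg {q : ℕ} (s s' : Option (Fin q)) : ℤ :=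
  ∑ r : Option (Fin q), if cmp r s ∧ cmp r s' then wgt r else 0

/-- The state sum of a program. -/
def Zc (q : ℕ) : (ℕ → Option (Fin q)) → List Cm → ℤ
  | _, [] => 1
  | σ, (a, none) :: cs => ∑ s : Option (Fin q), wgt s * Zc q (Function.update σ a s) cs
  | σ, (a, some b) :: cs => edg (σ a) (σ b) * Zc q σ cs

open Classical in
/-- The state sum of a graph. -/
noncomputable def SS (M : List (List Bool)) (q : ℕ) : ℤ :=
  ∑ f : Fin M.length → Option (Fin q),
    if ∀ u v, (graphOf M).Adj u v → cmp (f u) (f v) then ∏ v, wgt (f v) else 0

/-- The subgraph component polynomial at `x = -1`, `y = q`. -/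
noncomputable def Qv (M : List (List Bool)) (q : ℕ) : ℤ :=
  ∑ i ∈ Finset.range (M.length + 1), ∑ j ∈ Finset.range (M.length + 1),
    (-1) ^ i * (q : ℤ) ^ j * (qco M i j : ℤ)

/-- For a set `A`, the maps from `A` to `Fin q` that are constant on the components of `G[A]` are
the maps from the set of the components to `Fin q`; there are `q ^ (number of components)`. -/
def S_COMP : Prop := ∀ (M : List (List Bool)) (q : ℕ), SS M q = Qv M q

/-- The state sum is computed by the program. (Induction on the program from the right, for the sum
over all compatible `f` of `∏ wgt (f v)` times `g σ`, where `σ a` is the state of the current vertex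
with label `a`, for an arbitrary function `g`.) -/
def S_PROG : Prop := ∀ (q : ℕ) (cs : List Cm),
  SS (matOf cs) q = ∑ s : Option (Fin q), wgt s * Zc q (fun _ => s) cs

/-! ### Colorings -/

/-- High-level commands: `(true, a, b)` creates a vertex with label `a` and joins it by a subdivided
edge to the vertex with label `b`; `(false, a, b)` adds a subdivided edge between the vertices
with labels `a` and `b`. -/
abbrev Hc : Type := Bool × ℕ × ℕ

/-- From high-level commands to commands. -/
def low (hs : List Hc) : List Cm :=
  hs.flatMap fun h => if h.1 = true then [(h.2.1, none), (h.2.1, some h.2.2)] else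
    [(h.2.1, some h.2.2)]

/-- The coloring `σ` of the current vertices can be extended to the coloring `τ` by coloring the
vertices created by the commands properly. -/
def Ext (q : ℕ) : (ℕ → Fin q) → List Hc → (ℕ → Fin q) → Prop
  | σ, [], τ => τ = σ
  | σ, (true, a, b) :: hs, τ => ∃ c, c ≠ σ b ∧ Ext q (Function.update σ a c) hs τ
  | σ, (false, a, b) :: hs, τ => σ a ≠ σ b ∧ Ext q σ hs τ

/-- The graph of the program (before subdividing the edges) has a proper coloring. -/
def Col (q : ℕ) (hs : List Hc) : Prop := ∃ c τ, Ext q (fun _ => c) hs τ

/-- The state sum is `(1 - q) ^ m` (all states are `none`) plus `± ` the number of proper colorings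
(no state is `none`); mixed states contribute nothing, since the edge weights are
`edg none none = 1 - q`, `edg none (some c) = 0`, `edg (some c) (some d) = 1 - [c = d]` and every
new vertex is joined to an old one. -/
def S_UNIF : Prop := ∀ (q : ℕ) (hs : List Hc), (∀ h ∈ hs, h.2.1 ≠ h.2.2) →
  (∑ s : Option (Fin q), wgt s * Zc q (fun _ => s) (low hs) ≠ (1 - (q : ℤ)) ^ hs.length ↔
    Col q hs)

/-- The palette: a clique of vertices with the labels `0, …, K`. -/
def pal (K : ℕ) : List Hc :=
  (List.range K).flatMap fun c => (true, c + 1, 0) :: (List.range c).map fun d =>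
    (false, c + 1, d + 1)

/-- The rows: vertices with the labels `K + 1, …, K + g`, adjacent to the palette vertex `0`. -/
def rws (K g : ℕ) : List Hc := (List.range g).map fun i => (true, K + 1 + i, 0)

/-- All palette vertices except `0` and `a + 1` are joined to the vertex with label `X`. -/
def oth (K X a : ℕ) : List Hc :=
  ((List.range K).filter fun c => !decide (c = a)).map fun c => (false, X, c + 1)

/-- The gadget for the conflict `((i, a), (j, b))`: a vertex `X` that can only have the colors of the
palette vertices `0` and `a + 1`, adjacent to row `i`; a vertex `Y` for `0`, `b + 1` and row `j`;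
`X` and `Y` are adjacent. -/
def gad (K g : ℕ) (f : (ℕ × ℕ) × (ℕ × ℕ)) : List Hc :=
  (true, K + 1 + g, K + 1 + f.1.1) :: (oth K (K + 1 + g) f.1.2 ++
    (true, K + 2 + g, K + 1 + f.2.1) :: (oth K (K + 2 + g) f.2.2 ++
      [(false, K + 1 + g, K + 2 + g)]))

/-- The whole program. -/
def prog (K g : ℕ) (cf : List ((ℕ × ℕ) × (ℕ × ℕ))) : List Hc :=
  pal K ++ (rws K g ++ cf.flatMap (gad K g))

/-- The indices in the list of conflicts are in range. -/
def CfOk (K g : ℕ) (cf : List ((ℕ × ℕ) × (ℕ × ℕ))) : Prop :=
  ∀ f ∈ cf, f.1.1 < g ∧ f.2.1 < g ∧ f.1.2 < K ∧ f.2.2 < K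

/-- The program is valid, and its new vertices are joined to other labels. -/
def S_VALP : Prop := ∀ (K g : ℕ) (cf : List ((ℕ × ℕ) × (ℕ × ℕ))), CfOk K g cf →
  (∀ h ∈ prog K g cf, h.2.1 ≠ h.2.2) ∧ ValL (K + g + 3) [0] (low (prog K g cf))

/-- Colorings of the graph are choices `φ` of one of `K` values for each of the `g` rows that
avoid all conflicts: the palette gets all `K + 1` colors, row `i` gets the color of the palette
vertex `φ i + 1`. -/
def S_COL : Prop := ∀ (K g : ℕ) (cf : List ((ℕ × ℕ) × (ℕ × ℕ))), CfOk K g cf →
  (Col (K + 1) (prog K g cf) ↔ ∃ φ : ℕ → ℕ, (∀ i < g, φ i < K) ∧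
    ∀ f ∈ cf, ¬(φ f.1.1 = f.1.2 ∧ φ f.2.1 = f.2.2))

/-! ### Satisfiability -/

/-- The number of clauses in a group. -/
def sOf (F : Cnf) : ℕ := Nat.log 2 F.length / 6 + 1

/-- The number of partial assignments of a group. -/
def KOf (F : Cnf) : ℕ := 2 ^ (3 * sOf F)

/-- The number of groups. -/
def gOf (F : Cnf) : ℕ := F.length / sOf F + 1

/-- A group of clauses. -/
def grq (F : Cnf) (i : ℕ) : Cnf :=
  (F.zipIdx.filter fun p => decide (p.2 / sOf F = i)).map fun p => p.1

/-- The variables of a group. -/
def ocq (F : Cnf) (i : ℕ) : List ℕ := (grq F i).flatten.map fun l => l.1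

/-- The `a`-th partial assignment of group `i` is consistent with the `b`-th partial assignment of
group `j`, and satisfies group `i`. -/
def ok2 (F : Cnf) (f : (ℕ × ℕ) × (ℕ × ℕ)) : Bool :=
  match (opts (ocq F f.1.1))[f.1.2]? with
  | none => false
  | some L => match (opts (ocq F f.2.1))[f.2.2]? with
    | none => false
    | some L' => cons2 L L' && (cons2 L L &&
        (grq F f.1.1).all fun C => C.any fun l => decide (l ∈ L))

/-- All quadruples. -/
def quads (K g : ℕ) : List ((ℕ × ℕ) × (ℕ × ℕ)) :=
  (List.range g).flatMap fun i => (List.range K).flatMap fun a =>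
    (List.range g).flatMap fun j => (List.range K).map fun b => ((i, a), (j, b))

/-- The conflicts. -/
def cfOf (F : Cnf) : List ((ℕ × ℕ) × (ℕ × ℕ)) :=
  (quads (KOf F) (gOf F)).filter fun f => !ok2 F f

/-- Satisfying assignments are choices of a partial assignment for each group without conflicts.
(See `clique_iff` in `MC/SatClique.lean`; each group has at most `3 * sOf F` variables, so
`opts` has at most `KOf F` elements.) -/
def S_SAT : Prop := ∀ F : Cnf, IsThree F → (Satisfiable F ↔ ∃ φ : ℕ → ℕ, (∀ i < gOf F, φ i < KOf F) ∧
  ∀ f ∈ cfOf F, ¬(φ f.1.1 = f.1.2 ∧ φ f.2.1 = f.2.2))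

/-- The number of labels is `O(m / log m)`. -/
def S_AR : Prop := ∃ C : ℕ, ∀ F : Cnf,
  KOf F + gOf F + 5 ≤ C * (F.length / Nat.log 2 F.length + 1)

/-! ### Evaluation -/

/-- The value at `q` of the polynomial with the given coefficients. -/
def evq (row : List ℕ) (q : ℕ) : ℕ := row.foldr (fun c acc => c + q * acc) 0

/-- The sum of the values of the rows whose number is `r` modulo `2`. -/
def evs (tab : List (List ℕ)) (q r : ℕ) : ℕ :=
  ((tab.zipIdx.filter fun p => decide (p.2 % 2 = r)).map fun p => evq p.1 q).sum

/-- The test: is the value at `x = -1`, `y = q` different from `(1 - q) ^ m`? -/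
def post (q m : ℕ) (tab : List (List ℕ)) : Bool :=
  !decide (evs tab q 0 + (if m % 2 = 1 then (q - 1) ^ m else 0) =
    evs tab q 1 + if m % 2 = 0 then (q - 1) ^ m else 0)

/-- The test is correct. -/
def S_POST : Prop := ∀ (M : List (List Bool)) (q m : ℕ), 1 ≤ q →
  (post q m (qtab M) = true ↔ Qv M q ≠ (1 - (q : ℤ)) ^ m)

end Pool.Agent.H683.SC
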